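import Pool.Agent.KTB.StmtsKA

/-!
# Squad KTB, row BPL: peeling without a touching element
-/

set_option autoImplicit false

namespace Pool.Agent.KTB.H41

open Finset
open scoped Classical

theorem bpl (idn : IdnStmt) (ray : RayStmt) (pel : PelStmt) (tch : TchStmt) : BplStmt := by
  intro ι T _ D S R p f M t U π kk Q Rh q hBC hBH k hk r hr hxkr
  have hrRh : r ∈ Rh := hBH.RRh hr
  obtain ⟨Mh, hMh⟩ := hBC.all Rh ⟨q, f, hBH.vd⟩
  have hM : M = Mh := (tch ι T D S Rh R q p f f Mh M hBH.vd hBC.vd hBH.RRh hMh hBC.tm).1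
  subst hM
  have hray := hBH.vd.2.1
  have hsub : ∀ A, A ⊆ Rh → D.Ray S A q f := by
    intro A hA
    exact ⟨hA.trans hray.1, fun a ha => hray.2.1 a (hA ha), hray.2.2⟩
  have hno : ∀ R', R' ⊆ Rh.erase r → R'.Nonempty → ¬ D.LL (S \ R') := by
    intro R' hR' hne hLL
    have hR'h : R' ⊆ Rh := hR'.trans (Finset.erase_subset _ _)
    have hvd : D.Vd S R' q f := ⟨hne, hsub R' hR'h, hLL⟩
    obtain ⟨M', hM'⟩ := hBC.all R' ⟨q, f, hvd⟩
    have h1 := (tch ι T D S Rh R' q q f f M M' hBH.vd hvd hR'h hMh hM').2 k hk r hrRh hxkr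
    exact Finset.notMem_erase r Rh (hR' h1)
  have : Nonempty T := ⟨k⟩
  obtain ⟨h, Y, κ, -, hYinj, hpel⟩ := pel ι T D S (Rh.erase r) q f hBC.ll
    (hsub _ (Finset.erase_subset _ _)) hno
  refine ⟨h, Y, κ, hYinj, ?_⟩
  intro A hA
  obtain ⟨hYS, hYnQ, hxA, hpriv, huniq⟩ := hpel A hA
  obtain ⟨i1, -, i3, i4, i5⟩ := idn ι T D S
  have hARh : A ∈ Rh := Finset.mem_of_mem_erase hA
  have hAS : A ∈ S := hray.1 hARh
  -- the set of the later elements
  obtain ⟨QA, hQA⟩ : ∃ QA, QA = (Rh.erase r).filter fun b => h A ≤ h b := ⟨_, rfl⟩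
  rw [← hQA] at hpriv huniq ⊢
  have hQAsub : QA ⊆ Rh := by
    rw [hQA]
    exact (Finset.filter_subset _ _).trans (Finset.erase_subset _ _)
  have hAQA : A ∈ QA := by
    rw [hQA]
    exact Finset.mem_filter.2 ⟨hA, le_refl _⟩
  obtain ⟨r1, -, -, -, -, r6⟩ := ray ι T D S QA q f (hsub QA hQAsub) ⟨A, hAQA⟩
  have hc := (r6 hBC.ll (Y A) (κ A) hpriv huniq).2
  have hl := r1 (Y A) (κ A) hpriv
  obtain ⟨c, hcdef⟩ : ∃ c, c = ∑ b ∈ QA, (D.x (κ A) b : ℚ) * q b := ⟨_, rfl⟩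
  rw [← hcdef] at hc hl ⊢
  have htRh : t ∈ Rh := hBH.RRh hBC.tR
  obtain ⟨hqt, hlt⟩ := hray.2.1 t htRh
  obtain ⟨la, lb, hla, hlb, hlne⟩ := hray.2.2
  -- the relations
  have hrel : ∀ ρ ∈ D.R S, ρ (Y A) = -(c / q t * ρ t) := by
    intro ρ hρ
    have h1 := i4 la hla ρ hρ
    have h2 := hl la hla
    have h3 := hl _ h1
    have h4 := hlt la hla
    have h5 := hlt _ h1
    rw [Pi.add_apply] at h3 h5
    have h6 : ρ (Y A) = -(c * (f (la + ρ) - f la)) := by linear_combination h3 - h2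
    have h7 : ρ t = q t * (f (la + ρ) - f la) := by linear_combination h5 - h4
    rw [h6, h7]
    field_simp
  have hsm : Y A ∈ D.sm S t := by
    unfold Dat.sm
    exact Finset.mem_filter.2 ⟨hYS, c / q t, div_pos hc hqt, hrel⟩
  have hYnRh : Y A ∉ Rh := by
    intro hY
    have h1 := hBH.Qsp (hBH.RhQ hY)
    unfold Dat.sp at h1
    obtain ⟨-, c', hc', h2⟩ := Finset.mem_filter.1 h1
    have h3 := i3 la lb hla hlb
    have h4 := h2 _ h3
    rw [hrel _ h3] at h4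
    have h5 : (lb - la) t = q t * (f lb - f la) := by
      rw [Pi.sub_apply, hlt la hla, hlt lb hlb]
      ring
    have h6 : (c / q t + c') * (lb - la) t = 0 := by linear_combination -h4
    have h7 : 0 < c / q t + c' := add_pos (div_pos hc hqt) hc'
    rcases mul_eq_zero.1 h6 with h8 | h8
    · exact h7.ne' h8
    · rw [h5] at h8
      rcases mul_eq_zero.1 h8 with h9 | h9
      · exact hqt.ne' h9
      · exact hlne (sub_eq_zero.1 h9).symm
  have hprivh : D.Priv (S \ Rh) (Y A) (κ A) := by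
    refine ⟨Finset.mem_sdiff.2 ⟨hYS, hYnRh⟩, hpriv.2.1, ?_⟩
    intro b hb hbne
    have hb' := Finset.mem_sdiff.1 hb
    exact hpriv.2.2 b (Finset.mem_sdiff.2 ⟨hb'.1, fun h => hb'.2 (hQAsub h)⟩) hbne
  have hcln := hBC.cln (Y A) hsm
  have hπ : π (Y A) ∈ Rh := by
    by_cases hκ : κ A = kk (Y A)
    · have h1 : A = π (Y A) := by
        by_contra hne
        have hAY : A ≠ Y A := fun h => hYnRh (h ▸ hARh)
        obtain ⟨-, -, -, -, -, h2⟩ := hcln
        apply hxA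
        rw [hκ]
        exact h2 A hAS hAY hne
      rw [← h1]
      exact hARh
    · exact hBH.clo (Y A) hsm (κ A) hκ hprivh
  refine ⟨hsm, hπ, ?_, hxA, hpriv, ?_⟩
  · have h1 := hBC.bij.1 (Finset.mem_coe.2 hsm)
    rw [Finset.mem_coe, Finset.mem_sdiff] at h1
    exact h1.2
  · have h1 := (i5 (kk (Y A)) (Y A) (π (Y A)) hcln).1
    have h2 : ∀ l, D.Sol S l → q (π (Y A)) * f l = c * f l := by
      intro l hl'
      have h3 := h1 l hl'
      rw [hl l hl', (hray.2.1 _ hπ).2 l hl'] at h3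
      linear_combination h3
    by_cases h3 : f la = 0
    · have h4 : f lb ≠ 0 := fun h5 => hlne (by rw [h3, h5])
      exact mul_right_cancel₀ h4 (h2 lb hlb)
    · exact mul_right_cancel₀ h3 (h2 la hla)

end Pool.Agent.KTB.H41
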