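import Pool.Agent.KTB.StmtsKB

/-!
# Squad KTB, row FRA: the class of a free point
-/

set_option autoImplicit false

namespace Pool.Agent.KTB.H41

open Finset
open scoped Classical

theorem fra (idn : IdnStmt) (tga : TgaStmt) (rka : RkaStmt) (rkb : RkbStmt) : FraStmt := by
  intro ι T _ D S K μ k t hI hF
  obtain ⟨hkK, htE, hbig, hBtt⟩ := hF
  obtain ⟨hRks, -⟩ := rka ι T D S K μ hI
  obtain ⟨-, a2, -, -, a5, a6⟩ := tga ι T (D.rk S) (D.E S) K hRks
  obtain ⟨-, b2, b3, -, b5⟩ := rkb ι T D S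
  obtain ⟨-, -, -, -, i5⟩ := idn ι T D S
  have mE : ∀ j y, y ∈ D.E S j ↔ y ∈ S ∧ D.x j y ≠ 0 := by
    intro j y
    unfold Dat.E
    rw [Finset.mem_filter]
  have hval : ∀ j ∈ K, ∀ y ∈ D.E S j, y ∈ D.N S ∧ D.x j y = 1 ∧
      ∀ j' ∈ K, j' ≠ j → D.x j' y = 0 := by
    intro j hj y hy
    obtain ⟨hyS, hxy⟩ := (mE j y).1 hy
    have hyN : y ∈ D.N S := by
      by_contra h
      exact hxy (hI.out y hyS h j hj)
    obtain ⟨j0, hj0, h1, h2⟩ := hI.cov y hyN
    have h3 : j = j0 := by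
      by_contra h
      exact hxy (h2 j hj h)
    subst h3
    exact ⟨hyN, h1, h2⟩
  obtain ⟨htN, htk, hoth⟩ := hval k hkK t htE
  have h1 : ∀ y ∈ D.E S k, y ≠ t → y ∉ D.sg S t := by
    intro y hy hyt hsg
    have e1 := a5 k hkK hbig t htE y hy (Ne.symm hyt)
    have e2 := (b5 t htN y (hval k hkK y hy).1).2 hsg
    omega
  have hkpar : k ∉ D.par S K t := by
    intro h
    unfold Dat.par at h
    obtain ⟨-, h2⟩ := Finset.mem_filter.1 h
    obtain ⟨y, hy, hyt⟩ := Finset.exists_mem_ne (by omega : 1 < (D.E S k).card) t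
    exact h1 y hy hyt (h2 hy)
  have h2 : ∀ j ∈ K, j ≠ k → ∀ y ∈ D.E S j, y ∈ D.sg S t →
      j ∈ D.par S K t ∧ ∃ y', D.Clean S j y y' := by
    intro j hj hjk y hy hsg
    obtain ⟨hyN, hxy, -⟩ := hval j hj y hy
    have e1 : D.rk S {t, y} = 1 := (b5 t htN y hyN).2 hsg
    have e2 : D.rk S {y} = 1 := hRks.non j hj y hy
    have e3 : D.rk S (insert t (D.E S j)) = D.rk S (D.E S j) :=
      a2 {y} (D.E S j) (Finset.singleton_subset_iff.2 hy) t (by rw [e2]; exact e1)
    have e4 : Inc (D.rk S) (D.E S) {j} t := by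
      unfold Inc
      rw [Finset.singleton_biUnion]
      exact e3
    have e5 : j ∈ Btt (D.rk S) (D.E S) K k t := by
      unfold Btt
      refine Finset.mem_filter.2 ⟨hj, {j}, a6 j hj, ?_, e4, Finset.mem_singleton_self j⟩
      rw [Finset.mem_singleton]
      exact fun h => hjk h.symm
    have e6 := hBtt j e5
    obtain ⟨y', hy'⟩ : ∃ y', D.E S j = {y, y'} ∧ y ≠ y' := by
      obtain ⟨u, w, huw, hE⟩ := Finset.card_eq_two.1 e6
      rw [hE] at hy
      rcases Finset.mem_insert.1 hy with h | h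
      · subst h
        exact ⟨w, hE, huw⟩
      · rw [Finset.mem_singleton] at h
        subst h
        exact ⟨u, by rw [hE, Finset.pair_comm], huw.symm⟩
    obtain ⟨hE, hne⟩ := hy'
    have hy'E : y' ∈ D.E S j := by
      rw [hE]
      exact Finset.mem_insert_of_mem (Finset.mem_singleton_self _)
    have hcl : D.Clean S j y y' := by
      refine ⟨((mE j y).1 hy).1, ((mE j y').1 hy'E).1, hne, hxy, (hval j hj y' hy'E).2.1, ?_⟩
      intro b hb hby hby'
      by_contra h
      have h3 : b ∈ D.E S j := (mE j b).2 ⟨hb, h⟩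
      rw [hE] at h3
      rcases Finset.mem_insert.1 h3 with h4 | h4
      · exact hby h4
      · exact hby' (Finset.mem_singleton.1 h4)
    refine ⟨?_, y', hcl⟩
    unfold Dat.par
    refine Finset.mem_filter.2 ⟨hj, ?_⟩
    intro b hb
    rw [hE] at hb
    rcases Finset.mem_insert.1 hb with h4 | h4
    · rw [h4]
      exact hsg
    · rw [Finset.mem_singleton] at h4
      rw [h4]
      unfold Dat.sg at hsg ⊢
      obtain ⟨-, c, hc, h5⟩ := Finset.mem_filter.1 hsg
      refine Finset.mem_filter.2 ⟨((mE j y').1 hy'E).1, -c, neg_ne_zero.2 hc, ?_⟩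
      intro ρ hρ
      have h6 := (i5 j y y' hcl).2 ρ hρ
      have h7 := h5 ρ hρ
      linear_combination h6 - h7
  refine ⟨hkK, htN, hbig, htk, hoth, hkpar, ?_, ?_, ?_⟩
  · intro y hy hyt
    have hyN : y ∈ D.N S := by
      unfold Dat.sg at hy
      obtain ⟨hyS, c, hc, h5⟩ := Finset.mem_filter.1 hy
      unfold Dat.N at htN ⊢
      obtain ⟨-, ρ, hρ, h6⟩ := Finset.mem_filter.1 htN
      refine Finset.mem_filter.2 ⟨hyS, ρ, hρ, ?_⟩
      rw [h5 ρ hρ]
      exact mul_ne_zero hc h6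
    obtain ⟨j, hj, hx, -⟩ := hI.cov y hyN
    have hyS : y ∈ S := by
      unfold Dat.N at hyN
      exact (Finset.mem_filter.1 hyN).1
    have hx0 : D.x j y ≠ 0 := by omega
    have hyE : y ∈ D.E S j := (mE j y).2 ⟨hyS, hx0⟩
    have hjk : j ≠ k := by
      intro h
      rw [h] at hyE
      exact h1 y hyE hyt hy
    exact ⟨j, (h2 j hj hjk y hyE hy).1, hx0⟩
  · intro j hj y hyS hx
    have hj' := hj
    unfold Dat.par at hj'
    obtain ⟨hjK, hsub⟩ := Finset.mem_filter.1 hj'
    have hjk : j ≠ k := fun h => hkpar (h ▸ hj)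
    have hyE : y ∈ D.E S j := (mE j y).2 ⟨hyS, hx⟩
    exact (h2 j hjK hjk y hyE (hsub hyE)).2
  · intro C hCK hCne hkC hnul hρ j hj
    have hT : Tgt (D.rk S) (D.E S) K C := (b2 K C).2 ⟨hCK, hCne, hnul⟩
    have htS : t ∈ S := ((mE k t).1 htE).1
    have hInc : Inc (D.rk S) (D.E S) C t := (b3 C t htS).2 hρ
    have hB : ∀ i ∈ C, (D.E S i).card = 2 := by
      intro i hi
      apply hBtt
      unfold Btt
      exact Finset.mem_filter.2 ⟨hCK hi, C, hT, hkC, hInc, hi⟩
    have hex : rexc (D.E S) C = 0 := by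
      unfold rexc
      refine Finset.sum_eq_zero fun i hi => ?_
      have := hB i hi
      omega
    have hr1 : D.rk S (C.biUnion (D.E S)) = 1 := by
      rw [hT.2.2, hex]
    unfold Dat.par
    refine Finset.mem_filter.2 ⟨hCK hj, ?_⟩
    intro y hy
    have hyN := (hval j (hCK hj) y hy).1
    apply (b5 t htN y hyN).1
    have e1 : D.rk S {t, y} ≤ D.rk S (insert t (C.biUnion (D.E S))) := by
      apply hRks.mono
      intro b hb
      rcases Finset.mem_insert.1 hb with h | h
      · rw [h]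
        exact Finset.mem_insert_self _ _
      · rw [Finset.mem_singleton] at h
        rw [h]
        exact Finset.mem_insert_of_mem (Finset.mem_biUnion.2 ⟨j, hj, hy⟩)
    have e2 : D.rk S (insert t (C.biUnion (D.E S))) = D.rk S (C.biUnion (D.E S)) := hInc
    have e3 : D.rk S {t} ≤ D.rk S {t, y} := by
      apply hRks.mono
      intro b hb
      rw [Finset.mem_singleton] at hb
      rw [hb]
      exact Finset.mem_insert_self _ _
    have e4 : D.rk S {t} = 1 := hRks.non k hkK t htE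
    omega

end Pool.Agent.KTB.H41
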