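import Pool.Agent.KTB.StmtsKC

/-!
# Squad KTB, row KVK: the rank of the monomials meeting a stable set
-/

set_option autoImplicit false

namespace Pool.Agent.KTB.H41

open Finset
open scoped Classical

theorem kvk : KvkStmt := by
  intro σ _ I K hst
  obtain ⟨-, hs, hex⟩ := hst
  have hzero : ∀ α ∈ I, ∀ j ∈ K, α j = 1 → ∀ i ∈ K, i ≠ j → α i = 0 := by
    intro α hα j hj h1 i hi hij
    have h2 := hs α hα
    have h3 : α i + α j ≤ ∑ l ∈ K, α l := by
      have h4 : ({i, j} : Finset σ) ⊆ K := by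
        intro l hl
        rcases Finset.mem_insert.1 hl with h | h
        · rw [h]; exact hi
        · rw [Finset.mem_singleton.1 h]; exact hj
      have h5 := Finset.sum_le_sum_of_subset (f := fun l => α l) h4
      rw [Finset.sum_pair hij] at h5
      exact h5
    omega
  -- the restriction to the coordinates in `K`
  obtain ⟨π, hπ⟩ : ∃ π : (σ → ℚ) →ₗ[ℚ] (K → ℚ), ∀ v (i : K), π v i = v (i : σ) :=
    ⟨LinearMap.funLeft ℚ ℚ (Subtype.val : K → σ), fun v i => rfl⟩
  obtain ⟨W, hW⟩ : ∃ W : Submodule ℚ (σ → ℚ), W = Submodule.span ℚ {v : σ → ℚ | ∃ α ∈ I,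
    (∃ j ∈ K, α j = 1) ∧ v = fun i => (α i : ℚ)} := ⟨_, rfl⟩
  rw [← hW]
  have hVW : Pool.Agent.GEN.VK I K ≤ W := by
    unfold Pool.Agent.GEN.VK
    rw [Submodule.span_le]
    rintro v ⟨j, hj, α, hα, β, hβ, h1, h2, rfl⟩
    have e1 : (fun i => (α i : ℚ)) ∈ W := by
      rw [hW]
      exact Submodule.subset_span ⟨α, hα, ⟨j, hj, h1⟩, rfl⟩
    have e2 : (fun i => (β i : ℚ)) ∈ W := by
      rw [hW]
      exact Submodule.subset_span ⟨β, hβ, ⟨j, hj, h2⟩, rfl⟩
    exact W.sub_mem e1 e2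
  have hVk : Pool.Agent.GEN.VK I K ≤ LinearMap.ker π := by
    unfold Pool.Agent.GEN.VK
    rw [Submodule.span_le]
    rintro v ⟨j, hj, α, hα, β, hβ, h1, h2, rfl⟩
    rw [SetLike.mem_coe, LinearMap.mem_ker]
    funext i
    rw [hπ, Pi.zero_apply]
    by_cases hij : (i : σ) = j
    · rw [hij, h1, h2, sub_self]
    · rw [hzero α hα j hj h1 i i.2 hij, hzero β hβ j hj h2 i i.2 hij, sub_self]
  have hrn := LinearMap.finrank_range_add_finrank_ker (π.domRestrict W)
  have hrange : LinearMap.range (π.domRestrict W) = ⊤ := by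
    rw [Submodule.eq_top_iff']
    intro v
    rw [← (Pi.basisFun ℚ K).sum_repr v]
    refine Submodule.sum_mem _ (fun j _ => Submodule.smul_mem _ _ ?_)
    obtain ⟨α, hα, h1⟩ := hex j j.2
    have e1 : (fun i => (α i : ℚ)) ∈ W := by
      rw [hW]
      exact Submodule.subset_span ⟨α, hα, ⟨j, j.2, h1⟩, rfl⟩
    refine ⟨⟨_, e1⟩, ?_⟩
    rw [LinearMap.domRestrict_apply, Pi.basisFun_apply]
    funext i
    rw [hπ]
    by_cases hij : i = j
    · subst hij
      rw [Pi.single_eq_same]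
      simp only
      rw [h1, Nat.cast_one]
    · rw [Pi.single_eq_of_ne hij]
      simp only
      rw [hzero α hα j j.2 h1 i i.2 (fun h => hij (Subtype.ext h)), Nat.cast_zero]
  rw [hrange, finrank_top, Module.finrank_fintype_fun_eq_card, Fintype.card_coe] at hrn
  have hle : Module.finrank ℚ (Pool.Agent.GEN.VK I K) ≤
      Module.finrank ℚ (LinearMap.ker (π.domRestrict W)) := by
    rw [← Submodule.finrank_map_subtype_eq W (LinearMap.ker (π.domRestrict W))]
    apply Submodule.finrank_mono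
    intro v hv
    rw [Submodule.mem_map]
    refine ⟨⟨v, hVW hv⟩, ?_, rfl⟩
    rw [LinearMap.mem_ker, LinearMap.domRestrict_apply]
    exact hVk hv
  omega

end Pool.Agent.KTB.H41
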